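import Mathlib

set_option linter.unusedSectionVars false

/-!
# A right-alternative centrally essential ring that is not alternative

Over any nontrivial commutative ring `k` let `R` be the free `k`-module with basis
`1, x, y, p, q, t` and the products (besides those of the unit)
`x x = p`, `y x = q`, `p y = y p = t`, `q x = x q = t`, all other products of basis elements zero.
It is graded with `x, y` in degree one, `p, q` in degree two and `t` in degree three.
-/

namespace Pool.Agent.Results.MP_bbc03c_al.SixDim

/-- The underlying module: coordinates with respect to `1, x, y, p, q, t`. -/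
def Six (k : Type) : Type := Fin 6 → k

variable {k : Type} [CommRing k]

instance : AddCommGroup (Six k) := inferInstanceAs (AddCommGroup (Fin 6 → k))

instance : Module k (Six k) := inferInstanceAs (Module k (Fin 6 → k))

theorem six_add (u v : Six k) (i : Fin 6) : (u + v) i = u i + v i := rfl

theorem six_smul (c : k) (v : Six k) (i : Fin 6) : (c • v) i = c * v i := rfl

theorem six_zero (i : Fin 6) : (0 : Six k) i = 0 := rfl

theorem six_ext {u v : Six k} (h0 : u 0 = v 0) (h1 : u 1 = v 1) (h2 : u 2 = v 2)
    (h3 : u 3 = v 3) (h4 : u 4 = v 4) (h5 : u 5 = v 5) : u = v := by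
  funext i
  fin_cases i
  · exact h0
  · exact h1
  · exact h2
  · exact h3
  · exact h4
  · exact h5

/-- The coordinates of a six-tuple. -/
def mk (a b c d e f : k) : Six k := ![a, b, c, d, e, f]

@[simp] theorem mk0 (a b c d e f : k) : mk a b c d e f 0 = a := rfl
@[simp] theorem mk1 (a b c d e f : k) : mk a b c d e f 1 = b := rfl
@[simp] theorem mk2 (a b c d e f : k) : mk a b c d e f 2 = c := rfl
@[simp] theorem mk3 (a b c d e f : k) : mk a b c d e f 3 = d := rfl
@[simp] theorem mk4 (a b c d e f : k) : mk a b c d e f 4 = e := rfl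
@[simp] theorem mk5 (a b c d e f : k) : mk a b c d e f 5 = f := rfl

instance : Mul (Six k) :=
  ⟨fun u v => mk (u 0 * v 0) (u 0 * v 1 + u 1 * v 0) (u 0 * v 2 + u 2 * v 0)
    (u 0 * v 3 + u 3 * v 0 + u 1 * v 1) (u 0 * v 4 + u 4 * v 0 + u 2 * v 1)
    (u 0 * v 5 + u 5 * v 0 + u 3 * v 2 + u 2 * v 3 + u 4 * v 1 + u 1 * v 4)⟩

theorem mul0 (u v : Six k) : (u * v) 0 = u 0 * v 0 := rfl
theorem mul1 (u v : Six k) : (u * v) 1 = u 0 * v 1 + u 1 * v 0 := rfl
theorem mul2 (u v : Six k) : (u * v) 2 = u 0 * v 2 + u 2 * v 0 := rfl
theorem mul3 (u v : Six k) : (u * v) 3 = u 0 * v 3 + u 3 * v 0 + u 1 * v 1 := rfl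
theorem mul4 (u v : Six k) : (u * v) 4 = u 0 * v 4 + u 4 * v 0 + u 2 * v 1 := rfl
theorem mul5 (u v : Six k) : (u * v) 5 =
    u 0 * v 5 + u 5 * v 0 + u 3 * v 2 + u 2 * v 3 + u 4 * v 1 + u 1 * v 4 := rfl

instance : One (Six k) := ⟨mk 1 0 0 0 0 0⟩

theorem one0 : (1 : Six k) 0 = 1 := rfl
theorem one1 : (1 : Six k) 1 = 0 := rfl
theorem one2 : (1 : Six k) 2 = 0 := rfl
theorem one3 : (1 : Six k) 3 = 0 := rfl
theorem one4 : (1 : Six k) 4 = 0 := rfl
theorem one5 : (1 : Six k) 5 = 0 := rfl

instance instRing : NonAssocRing (Six k) :=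
  { (inferInstance : AddCommGroup (Six k)), (inferInstance : Mul (Six k)),
    (inferInstance : One (Six k)) with
    left_distrib := by
      intro a b c
      apply six_ext <;>
        simp only [six_add, mul0, mul1, mul2, mul3, mul4, mul5] <;> ring
    right_distrib := by
      intro a b c
      apply six_ext <;>
        simp only [six_add, mul0, mul1, mul2, mul3, mul4, mul5] <;> ring
    zero_mul := by
      intro a
      apply six_ext <;>
        simp only [six_zero, mul0, mul1, mul2, mul3, mul4, mul5] <;> ring
    mul_zero := by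
      intro a
      apply six_ext <;>
        simp only [six_zero, mul0, mul1, mul2, mul3, mul4, mul5] <;> ring
    one_mul := by
      intro a
      apply six_ext <;>
        simp only [one0, one1, one2, one3, one4, one5, mul0, mul1, mul2, mul3, mul4, mul5] <;> ring
    mul_one := by
      intro a
      apply six_ext <;>
        simp only [one0, one1, one2, one3, one4, one5, mul0, mul1, mul2, mul3, mul4, mul5] <;>
        ring }

instance : IsScalarTower k (Six k) (Six k) := ⟨by
  intro c a b
  show (c • a) * b = c • (a * b)
  apply six_ext <;>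
    simp only [six_smul, mul0, mul1, mul2, mul3, mul4, mul5] <;> ring⟩

instance : SMulCommClass k (Six k) (Six k) := ⟨by
  intro c a b
  show c • (a * b) = a * (c • b)
  apply six_ext <;>
    simp only [six_smul, mul0, mul1, mul2, mul3, mul4, mul5] <;> ring⟩

/-- Elements without `x, y` components are central. -/
theorem mem_center {z : Six k} (h1 : z 1 = 0) (h2 : z 2 = 0) : z ∈ Set.center (Six k) := by
  rw [Set.mem_center_iff]
  refine ⟨fun a => ?_, fun a b => ?_, fun a b => ?_⟩
  · show z * a = a * z
    apply six_ext <;>
      simp only [mul0, mul1, mul2, mul3, mul4, mul5, h1, h2] <;> ring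
  · apply six_ext <;>
      simp only [mul0, mul1, mul2, mul3, mul4, mul5, h1, h2] <;> ring
  · apply six_ext <;>
      simp only [mul0, mul1, mul2, mul3, mul4, mul5, h1, h2] <;> ring

/-- **Theorem.** For every nontrivial commutative ring `k` there is a unital, not necessarily
associative `k`-algebra `R`, free of rank six as a `k`-module, that is right-alternative (and even
satisfies the right Moufang identity) and centrally essential (for every nonzero `r` there is a
central `z` with `z r` central and nonzero) but is not left-alternative, hence not alternative. -/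
theorem result (k : Type) [CommRing k] [Nontrivial k] :
    ∃ (R : Type) (_ : NonAssocRing R) (_ : Module k R),
      IsScalarTower k R R ∧ SMulCommClass k R R ∧
      Module.Free k R ∧ Module.finrank k R = 6 ∧
      (∀ a b : R, (a * b) * b = a * (b * b)) ∧
      (∀ a b c : R, ((a * b) * c) * b = a * ((b * c) * b)) ∧
      (¬ ∀ a b : R, (a * a) * b = a * (a * b)) ∧
      (∀ r : R, r ≠ 0 → ∃ z ∈ Set.center R, z * r ≠ 0 ∧ z * r ∈ Set.center R) := by
  refine ⟨Six k, instRing, inferInstance, inferInstance, inferInstance,
    inferInstanceAs (Module.Free k (Fin 6 → k)), ?_, ?_, ?_, ?_, ?_⟩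
  · show Module.finrank k (Fin 6 → k) = 6
    rw [Module.finrank_fin_fun]
  · intro a b
    apply six_ext <;>
      simp only [mul0, mul1, mul2, mul3, mul4, mul5] <;> ring
  · intro a b c
    apply six_ext <;>
      simp only [mul0, mul1, mul2, mul3, mul4, mul5] <;> ring
  · intro h
    have h1 := congrFun (h (mk 0 1 0 0 0 0) (mk 0 0 1 0 0 0)) 5
    simp only [mul0, mul1, mul2, mul3, mul4, mul5, mk0, mk1, mk2, mk3, mk4, mk5] at h1
    ring_nf at h1
    exact one_ne_zero h1
  · intro r hr
    by_cases h1 : r 1 = 0
    · by_cases h2 : r 2 = 0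
      · exact ⟨1, mem_center rfl rfl, by rw [one_mul]; exact hr,
          by rw [one_mul]; exact mem_center h1 h2⟩
      · refine ⟨mk 0 0 0 1 0 0, mem_center rfl rfl, ?_, mem_center ?_ ?_⟩
        · intro h0
          have h5 := congrFun h0 5
          simp only [mul5, mk0, mk1, mk2, mk3, mk4, mk5, six_zero] at h5
          ring_nf at h5
          exact h2 h5
        · simp only [mul1, mk0, mk1]; ring
        · simp only [mul2, mk0, mk2]; ring
    · refine ⟨mk 0 0 0 0 1 0, mem_center rfl rfl, ?_, mem_center ?_ ?_⟩
      · intro h0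
        have h5 := congrFun h0 5
        simp only [mul5, mk0, mk1, mk2, mk3, mk4, mk5, six_zero] at h5
        ring_nf at h5
        exact h1 h5
      · simp only [mul1, mk0, mk1]; ring
      · simp only [mul2, mk0, mk2]; ring

end Pool.Agent.Results.MP_bbc03c_al.SixDim
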